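import Pool.Agent.Q163.HN.D

/-!
# MP_8b9ec4_lc, Q1: Polish groups with an uncountable centre

A Polish group whose centre is uncountable is a disjoint union of countably many naively Haar
null sets, so its naively Haar null sets are not a sigma-ideal.  This covers every uncountable
abelian Polish group.
-/

set_option autoImplicit false

namespace Pool.Agent.Results.MP_8b9ec4_lc.UncountableCentre

open Set MeasureTheory

universe u

/-- `X` is naively Haar null: there is a Borel probability measure that gives outer measure zero
to all the translates `g X h`. -/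
def NaivelyHaarNull {G : Type u} [Group G] [MeasurableSpace G] (X : Set G) : Prop :=
  ∃ μ : Measure G, IsProbabilityMeasure μ ∧ ∀ g h : G, μ ((fun x => g * x * h) '' X) = 0

/-- A family of sets closed under subsets and under countable unions. -/
def IsSigmaIdeal {G : Type u} (I : Set (Set G)) : Prop :=
  (∀ X ∈ I, ∀ Y, Y ⊆ X → Y ∈ I) ∧ ∀ X : ℕ → Set G, (∀ n, X n ∈ I) → (⋃ n, X n) ∈ I

/-- The group is the disjoint union of countably many naively Haar null sets, and its naively Haar
null sets are not a sigma-ideal. -/
def Fails (G : Type u) [Group G] [MeasurableSpace G] : Prop :=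
  (∃ X : ℕ → Set G, (∀ n m, n ≠ m → Disjoint (X n) (X m)) ∧ (⋃ n, X n) = univ ∧
    ∀ n, NaivelyHaarNull (X n)) ∧
  ¬ IsSigmaIdeal {X : Set G | NaivelyHaarNull X}

theorem centre (G : Type u) [Group G] [TopologicalSpace G] [IsTopologicalGroup G] [PolishSpace G]
    [MeasurableSpace G] [BorelSpace G] (hZ : ¬ (Set.center G).Countable) : Fails G := by
  obtain ⟨c, hc, hcent, hd⟩ := Q163.HN.exists_central hZ
  obtain ⟨X, hdis, hun, hnull⟩ := Q163.HN.partition hc hcent hd
  refine ⟨⟨X, fun n m hnm => hdis hnm, hun, hnull⟩, fun hI => ?_⟩
  obtain ⟨μ, hμ, h0⟩ := hI.2 X hnull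
  have h1 := h0 1 1
  rw [hun] at h1
  simp at h1

/-- Every Polish group with an uncountable centre, and so every uncountable abelian Polish group,
is the disjoint union of countably many naively Haar null sets, and its naively Haar null sets
are not a sigma-ideal. -/
theorem result :
    (∀ (G : Type u) [Group G] [TopologicalSpace G] [IsTopologicalGroup G] [PolishSpace G]
      [MeasurableSpace G] [BorelSpace G], ¬ (Set.center G).Countable → Fails G) ∧
    ∀ (G : Type u) [CommGroup G] [TopologicalSpace G] [IsTopologicalGroup G] [PolishSpace G]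
      [MeasurableSpace G] [BorelSpace G], ¬ Countable G → Fails G := by
  refine ⟨fun G => centre G, fun G _ _ _ _ _ _ hG => centre G fun h => hG ?_⟩
  rw [Set.center_eq_univ] at h
  exact countable_univ_iff.1 h

end Pool.Agent.Results.MP_8b9ec4_lc.UncountableCentre
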